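import Pool.Agent.X263.Qh.Zp

/-!
The forms `W h m b C` over commutative rings.
-/

set_option autoImplicit false
set_option linter.unusedSectionVars false

namespace Pool.Agent.X263.Qh

open Matrix Pool.Agent.X263.Qf

section

variable {B : Type*} [CommRing B] [StarRing B]

theorem cen_of {μ : B} (h : star μ = μ) : Cen μ := ⟨fun x => mul_comm x μ, h⟩

/-- a shear -/
theorem shear {h : B} (hh : star h = h) (h2 : 2 * h = 1) {m₁ m₂ J : B} (s₁ : star m₁ = m₁)
    (s₂ : star m₂ = m₂) (sJ : star J = J) (s r : B) (sr : star r = r)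
    (hc : m₁ * r = s + star s + m₂ * (star s * s)) :
    QI 1 (W h (m₁ * m₂) (1 + m₂ * s) r)
      (W h (m₁ * (m₂ - m₁ * J)) (1 + (m₂ - m₁ * J) * s) (r - J * (star s * s))) := by
  obtain ⟨s', hs'⟩ : ∃ s', s' = star s := ⟨_, rfl⟩
  have hs : star s' = s := by rw [hs', star_star]
  rw [← hs'] at hc
  rw [← hs']
  refine QI_W (cen_of hh) h2 ?_ sr ?_ ?_ !![1 + m₁ * (h * J) * s', -(m₁ ^ 2 * (h * J));
      (h * J) * s' ^ 2, 1 - m₁ * (h * J) * s']
    !![1 - m₁ * (h * J) * s', m₁ ^ 2 * (h * J); -((h * J) * s' ^ 2), 1 + m₁ * (h * J) * s']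
    ?_ ?_ ?_
  · rw [star_mul, s₁, s₂, mul_comm]
  · simp only [star_sub, star_mul, s₁, s₂, sJ]; ring
  · simp only [star_sub, star_mul, sJ, sr, hs, ← hs']; ring
  · rw [Matrix.mul_fin_two, Matrix.one_fin_two]
    ext i k
    fin_cases i <;> fin_cases k <;> simp <;> ring
  · rw [Matrix.mul_fin_two, Matrix.one_fin_two]
    ext i k
    fin_cases i <;> fin_cases k <;> simp <;> ring
  · rw [ct_two, Matrix.mul_fin_two, Matrix.mul_fin_two]
    simp only [star_add, star_sub, star_mul, star_neg, star_pow, star_one, s₁, s₂, sJ, hh, hs,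
      ← hs']
    ext i k
    fin_cases i <;> fin_cases k
    · simp
      linear_combination (m₁ ^ 3 * (h * J) ^ 2) * hc - (m₁ ^ 2 * J) * h2
    · simp
      linear_combination (-(m₁ * (h * J) * (1 - m₁ * (h * J) * s))) * hc - (m₁ * J * s) * h2
    · simp
      linear_combination (-(m₁ * (h * J) * (1 - m₁ * (h * J) * s'))) * hc -
        (m₁ * J * s') * h2
    · simp
      linear_combination (-((h * J) * (s + s')) + m₁ * (h * J) ^ 2 * s * s') * hc -
        (J * s * s') * h2

variable {R : Type*} [CommRing R] (κ : R →+* B)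

/-- the statement for a pair of coprime elements -/
def PR (η a b : R) : Prop := ∀ x y : R, x * b + y * a = 1 → ∀ t : B, t * star t = 1 →
  SE 1 (W (κ η) (κ (a * b)) (κ (x * b) * t + κ (y * a)) (κ (x * y) * (t + star t - 2)))
    (hy B Unit)

variable (hκ : ∀ r, star (κ r) = κ r) {η : R} (hη : 2 * η = 1)

include hκ hη

theorem half_map : 2 * κ η = 1 := by
  have := congrArg κ hη
  rw [map_mul, map_one, map_ofNat] at this
  exact this

theorem W_eq {m m' b b' c c' : B} (h : B) (h1 : m = m') (h2 : b = b') (h3 : c = c') :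
    QI 1 (W h m b c) (W h m' b' c') := by
  subst h1 h2 h3
  exact QI.refl _ _

theorem PR.step {a b : R} (j : R) (hp : PR κ η a (b - a * j)) : PR κ η a b := by
  intro x y h1 t ht
  have h1B : κ x * κ b + κ y * κ a = 1 := by
    rw [← map_mul, ← map_mul, ← map_add, h1, map_one]
  have s1 := hp x (y + j * x) (by linear_combination h1) t ht
  refine (SE.of_QI ?_).trans s1
  have hst : star (t - 1) = star t - 1 := by rw [star_sub, star_one]
  have q1 := shear (hκ η) (half_map κ hκ hη) (hκ a) (hκ b) (hκ j) (κ x * (t - 1))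
    (κ (x * y) * (t + star t - 2)) (by
      simp only [star_mul, star_sub, star_add, star_star, hκ, star_ofNat]
      ring) (by
      simp only [star_mul, star_sub, star_one, hκ, map_mul]
      linear_combination (κ x * (t + star t - 2)) * h1B - (κ b * κ x ^ 2) * ht)
  refine (W_eq κ hκ hη (κ η) ?_ ?_ rfl).trans (q1.trans (W_eq κ hκ hη (κ η) ?_ ?_ ?_))
  · rw [map_mul]
  · simp only [map_mul]
    linear_combination h1B
  · simp only [map_mul, map_sub]
  · simp only [map_mul, map_sub, map_add]
    linear_combination -h1B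
  · simp only [map_mul, map_add, star_mul, star_sub, star_one, hκ]
    linear_combination (-(κ j * κ x ^ 2)) * ht

theorem PR.swap {a b : R} (hp : PR κ η b a) : PR κ η a b := by
  intro x y h1 t ht
  have s1 := hp y x (by linear_combination h1) (star t) (by rw [star_star, mul_comm]; exact ht)
  refine (SE.of_QI ?_).trans s1
  refine QI_W (cen_of (hκ η)) (half_map κ hκ hη) (hκ _) ?_ (hκ _) ?_
    !![1, 0; 0, t] !![1, 0; 0, star t] ?_ ?_ ?_
  · simp only [star_mul, star_sub, star_add, star_star, hκ, star_ofNat]; ring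
  · simp only [star_mul, star_sub, star_add, star_star, hκ, star_ofNat]; ring
  · rw [Matrix.mul_fin_two, Matrix.one_fin_two]; simp [ht]
  · rw [Matrix.mul_fin_two, Matrix.one_fin_two]; simp [mul_comm (star t), ht]
  · rw [ct_two, Matrix.mul_fin_two, Matrix.mul_fin_two]
    simp only [star_add, star_mul, star_one, hκ, star_zero, star_star, map_mul]
    ext i k
    fin_cases i <;> fin_cases k
    · simp; ring
    · simp
      linear_combination (κ x * κ b) * ht
    · simp
      linear_combination (κ x * κ b) * ht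
    · simp
      linear_combination (κ x * κ y * (t + star t - 2)) * ht

theorem PR.base : PR κ η 1 0 := by
  intro x y h1 t ht
  have hy1 : y = 1 := by linear_combination h1
  subst hy1
  have q1 := hplaneW (A := B) (κ η) 1 (κ (x * 1) * (t + star t - 2)) 1 (one_mul 1) (one_mul 1)
  refine SE.of_QI ((W_eq κ hκ hη (κ η) ?_ ?_ rfl).trans q1)
  · simp
  · simp

theorem PR.upper {a b : R} (r : R) (hp : PR κ η a b) : PR κ η a (b + a * r) :=
  PR.step κ hκ hη r (by rw [add_sub_cancel_right]; exact hp)

theorem PR.lower {a b : R} (r : R) (hp : PR κ η a b) : PR κ η (a + b * r) b :=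
  PR.swap κ hκ hη (PR.upper κ hκ hη r (PR.swap κ hκ hη hp))

/-- the elementary matrices -/
def El (R : Type*) [CommRing R] : Set (Matrix.SpecialLinearGroup (Fin 2) R) :=
  {x | ∃ r : R, x.val = !![1, r; 0, 1] ∨ x.val = !![1, 0; r, 1]}

theorem PR.all (hE : Subgroup.closure (El R) = ⊤) {a b x y : R} (h1 : x * b + y * a = 1) :
    PR κ η a b := by
  let g : Matrix.SpecialLinearGroup (Fin 2) R := ⟨!![a, b; -x, y], by
    rw [Matrix.det_fin_two_of]; linear_combination h1⟩
  have hg : g ∈ Subgroup.closure (El R) := by rw [hE]; trivial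
  have key : ∀ g : Matrix.SpecialLinearGroup (Fin 2) R, g ∈ Subgroup.closure (El R) →
      PR κ η (g.val 0 0) (g.val 0 1) := by
    intro g hg
    induction hg using Subgroup.closure_induction_right with
    | one =>
      have := PR.base κ hκ hη
      simpa using this
    | mul_right x _ y hy hp =>
      obtain ⟨r, hr | hr⟩ := hy
      · have e1 : (x * y).val 0 0 = x.val 0 0 := by
          rw [Matrix.SpecialLinearGroup.coe_mul, hr, Matrix.mul_apply, Fin.sum_univ_two]; simp
        have e2 : (x * y).val 0 1 = x.val 0 1 + x.val 0 0 * r := by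
          rw [Matrix.SpecialLinearGroup.coe_mul, hr, Matrix.mul_apply, Fin.sum_univ_two]; simp
          ring
        rw [e1, e2]
        exact PR.upper κ hκ hη r hp
      · have e1 : (x * y).val 0 0 = x.val 0 0 + x.val 0 1 * r := by
          rw [Matrix.SpecialLinearGroup.coe_mul, hr, Matrix.mul_apply, Fin.sum_univ_two]; simp
        have e2 : (x * y).val 0 1 = x.val 0 1 := by
          rw [Matrix.SpecialLinearGroup.coe_mul, hr, Matrix.mul_apply, Fin.sum_univ_two]; simp
        rw [e1, e2]
        exact PR.lower κ hκ hη r hp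
    | mul_inv_cancel x _ y hy hp =>
      obtain ⟨r, hr | hr⟩ := hy
      · have hi : (y⁻¹).val = !![1, -r; 0, 1] := by
          rw [Matrix.SpecialLinearGroup.coe_inv, hr, Matrix.adjugate_fin_two_of]; simp
        have e1 : (x * y⁻¹).val 0 0 = x.val 0 0 := by
          rw [Matrix.SpecialLinearGroup.coe_mul, hi, Matrix.mul_apply, Fin.sum_univ_two]; simp
        have e2 : (x * y⁻¹).val 0 1 = x.val 0 1 + x.val 0 0 * (-r) := by
          rw [Matrix.SpecialLinearGroup.coe_mul, hi, Matrix.mul_apply, Fin.sum_univ_two]; simp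
          ring
        rw [e1, e2]
        exact PR.upper κ hκ hη (-r) hp
      · have hi : (y⁻¹).val = !![1, 0; -r, 1] := by
          rw [Matrix.SpecialLinearGroup.coe_inv, hr, Matrix.adjugate_fin_two_of]; simp
        have e1 : (x * y⁻¹).val 0 0 = x.val 0 0 + x.val 0 1 * (-r) := by
          rw [Matrix.SpecialLinearGroup.coe_mul, hi, Matrix.mul_apply, Fin.sum_univ_two]; simp
        have e2 : (x * y⁻¹).val 0 1 = x.val 0 1 := by
          rw [Matrix.SpecialLinearGroup.coe_mul, hi, Matrix.mul_apply, Fin.sum_univ_two]; simp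
        rw [e1, e2]
        exact PR.lower κ hκ hη (-r) hp
  exact key g hg

/-- the residues of two parts -/
theorem Z_two (hE : Subgroup.closure (El R) = ⊤) {a b x y : R} (h1 : x * b + y * a = 1) {t : B}
    (ht : t * star t = 1) : Z (κ η) (κ (a * b)) (κ (x * b) * t + κ (y * a)) := by
  have h1B : κ x * κ b + κ y * κ a = 1 := by
    rw [← map_mul, ← map_mul, ← map_add, h1, map_one]
  have key : (κ (x * b) * t + κ (y * a)) * star (κ (x * b) * t + κ (y * a)) =
      1 + κ (a * b) * (κ (x * y) * (t + star t - 2)) := by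
    simp only [star_mul, star_add, hκ, map_mul]
    linear_combination (κ x ^ 2 * κ b ^ 2) * ht + (κ x * κ b + κ y * κ a + 1) * h1B
  have sC : star (κ (x * y) * (t + star t - 2)) = κ (x * y) * (t + star t - 2) := by
    simp only [star_mul, star_sub, star_add, star_star, hκ, star_ofNat]; ring
  exact ⟨_, _, ⟨sC, sC, by rw [mul_comm]; exact key, key⟩, PR.all κ hκ hη hE h1 x y h1 t ht⟩

end

end Pool.Agent.X263.Qh
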