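import Pool.Agent.X263.Qh.Red

/-!
The even stable theorem for group rings over factorial domains containing one half.
-/

set_option autoImplicit false
set_option linter.unusedSectionVars false

namespace Pool.Agent.X263.Qh

open Matrix TH6.PF Pool.Agent.X263.Qf

attribute [local instance] rs

section

variable {R G : Type} [CommRing R] [StarRing R] [TrivialStar R] [Group G]

/-- a self-adjoint divisor of a constant is constant -/
theorem const_of_mul [IsDomain R] [UniqueProds G] (D N : MonoidAlgebra R G) (n : R) (hn : n ≠ 0)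
    (h1 : D * N = kp R G n) (h2 : N * D = kp R G n) (hs : star D = D) :
    ∃ e : R, D = kp R G e := by
  classical
  let Q := FractionRing R
  let i : R →+* Q := algebraMap R Q
  have hi : Function.Injective i := IsFractionRing.injective R Q
  let F : MonoidAlgebra R G →+* MonoidAlgebra Q G := MonoidAlgebra.mapRingHom G i
  have hF : ∀ (x : MonoidAlgebra R G) (g : G), (F x).coeff g = i (x.coeff g) :=
    fun x g => rfl
  have hin : i n ≠ 0 := fun h => hn (hi (by rw [h, map_zero]))
  have hFk : F (kp R G n) = MonoidAlgebra.single 1 (i n) := by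
    ext g
    rw [hF, kp_apply, MonoidAlgebra.coeff_single, MonoidAlgebra.coeff_single,
      Finsupp.single_apply, Finsupp.single_apply]
    split_ifs
    · rfl
    · exact map_zero i
  have hc : ∀ x : MonoidAlgebra Q G, x * MonoidAlgebra.single 1 (i n)⁻¹ =
      MonoidAlgebra.single 1 (i n)⁻¹ * x := by
    intro x
    induction x using MonoidAlgebra.induction_linear with
    | zero => simp
    | add x y hx hy => rw [add_mul, mul_add, hx, hy]
    | single g r =>
      rw [MonoidAlgebra.single_mul_single, MonoidAlgebra.single_mul_single, mul_one, one_mul,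
        mul_comm]
  have hnn : (MonoidAlgebra.single 1 (i n) : MonoidAlgebra Q G) *
      MonoidAlgebra.single 1 (i n)⁻¹ = 1 := by
    rw [MonoidAlgebra.single_mul_single, one_mul, mul_inv_cancel₀ hin]
    rfl
  have k1 : F D * (F N * MonoidAlgebra.single 1 (i n)⁻¹) = 1 := by
    rw [← mul_assoc, ← map_mul, h1, hFk, hnn]
  have k2 : (F N * MonoidAlgebra.single 1 (i n)⁻¹) * F D = 1 := by
    rw [mul_assoc, ← hc, ← mul_assoc, ← map_mul, h2, hFk, hnn]
  obtain ⟨k, g, hk, hu⟩ := unit_single _ _ k1 k2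
  have h3 : ∀ h, h ≠ g → D.coeff h = 0 := by
    intro h hh
    have := hF D h
    rw [hu, MonoidAlgebra.coeff_single, Finsupp.single_eq_of_ne hh] at this
    exact hi (by rw [← this, map_zero])
  have h4 : D.coeff g ≠ 0 := by
    intro h5
    have := hF D g
    rw [hu, MonoidAlgebra.coeff_single, Finsupp.single_eq_same, h5, map_zero] at this
    exact hk this
  have hg : g = 1 := by
    by_contra hg
    have h5 := congrArg (fun x => x.coeff g) hs
    simp only [coeff_star] at h5
    rw [h3 g⁻¹ (inv_ne hg).symm] at h5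
    exact h4 h5.symm
  refine ⟨D.coeff 1, ?_⟩
  ext h
  rw [kp_apply, MonoidAlgebra.coeff_single, Finsupp.single_apply]
  split_ifs with h6
  · rw [h6]
  · exact h3 h (by rw [hg]; exact Ne.symm h6)

theorem augm_kp (r : R) : augm R G (kp R G r) = r := augm_single 1 r

theorem augm_star (x : MonoidAlgebra R G) : augm R G (star x) = augm R G x := by
  rw [star_rs, augm_sbar, star_trivial]

theorem QI_form {η : R} (hη : 2 * η = 1) (δ : Matrix (Fin 2) (Fin 2) (MonoidAlgebra R G)) :
    QI 1 δ (W (kp R G η) (δ 0 0 + star (δ 0 0)) (δ 0 1 + star (δ 1 0)) (δ 1 1 + star (δ 1 1))) := by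
  have hh := cen_kp (R := R) (G := G) η
  have h2 : 2 * kp R G η = 1 := half_kp hη
  refine QI_of_sy (hl_half hh h2) 1 1 (one_mul 1) (one_mul 1) ?_
  rw [conjTranspose_one, Matrix.one_mul, Matrix.mul_one,
    sy_W hh h2 (by rw [star_add, star_star, add_comm]) (by rw [star_add, star_star, add_comm])]
  ext1 i j
  fin_cases i <;> fin_cases j
  · simp [sy]
  · simp [sy]
  · simp [sy, add_comm]
  · simp [sy]

variable [IsDomain R] [UniqueFactorizationMonoid R]

theorem even_ne [UniqueProds G] {η : R} (hη : 2 * η = 1) (hE : Subgroup.closure (El R) = ⊤)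
    (d : R) (hd : d ≠ 0) (δ : Matrix (Fin 2) (Fin 2) (MonoidAlgebra R G))
    (h0 : δ 0 0 = kp R G d) (hn : NS 1 δ) : SE 1 δ (δ.map (rh R G)) := by
  obtain ⟨m, hm⟩ : ∃ m, m = 2 * d := ⟨_, rfl⟩
  have hm0 : m ≠ 0 := by
    rw [hm]
    refine mul_ne_zero ?_ hd
    intro h
    rw [h, zero_mul] at hη
    exact zero_ne_one hη
  have hh := cen_kp (R := R) (G := G) η
  have h2 : 2 * kp R G η = 1 := half_kp hη
  have cm := cen_kp (R := R) (G := G) m
  have hdd : ∀ x : MonoidAlgebra R G, kp R G m * x = 0 → x = 0 := fun x => tf_kp hm0 x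
  have e00 : δ 0 0 + star (δ 0 0) = kp R G m := by
    rw [h0, star_kp, ← map_add, hm, two_mul]
  obtain ⟨b, hb⟩ : ∃ b, b = δ 0 1 + star (δ 1 0) := ⟨_, rfl⟩
  obtain ⟨C, hC⟩ : ∃ C, C = δ 1 1 + star (δ 1 1) := ⟨_, rfl⟩
  have sC : star C = C := by rw [hC, star_add, star_star, add_comm]
  have q1 := QI_form hη δ
  rw [e00, ← hb, ← hC] at q1
  -- the augmentation
  obtain ⟨b', hb'⟩ : ∃ b', b' = augm R G b := ⟨_, rfl⟩
  obtain ⟨C', hC'⟩ : ∃ C', C' = augm R G C := ⟨_, rfl⟩
  have q2 : QI 1 (δ.map (rh R G)) (W (kp R G η) (kp R G m) (kp R G b') (kp R G C')) := by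
    have := QI_form hη (δ.map (rh R G))
    have f1 : ∀ i j k l, δ.map (rh R G) i j + star (δ.map (rh R G) k l) =
        kp R G (augm R G (δ i j + star (δ k l))) := by
      intro i j k l
      rw [Matrix.map_apply, Matrix.map_apply, map_add, augm_star, map_add, rh_apply, rh_apply,
        ← kp_apply, ← kp_apply, star_kp]
    rw [f1, f1, f1, e00, ← hb, ← hC, ← hb', ← hC', augm_kp] at this
    exact this
  have hns := q1.ns (by norm_num) hn
  obtain ⟨N, n1, n2⟩ := hns
  rw [sy_W hh h2 (star_kp m) sC] at n1 n2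
  obtain ⟨μ, hμ⟩ : ∃ μ : MonoidAlgebra R G, μ = kp R G m := ⟨_, rfl⟩
  rw [← hμ] at n1 n2 hdd cm q1 q2
  have cμ := cm.comm
  have sμ := cm.star
  have e2 : μ * N 0 1 + b * N 1 1 = 0 := by
    simpa [Matrix.mul_apply, Fin.sum_univ_two] using congrFun (congrFun n1 0) 1
  have e4 : star b * N 0 1 + C * N 1 1 = 1 := by
    simpa [Matrix.mul_apply, Fin.sum_univ_two] using congrFun (congrFun n1 1) 1
  have e5 : N 0 0 * μ + N 0 1 * star b = 1 := by
    simpa [Matrix.mul_apply, Fin.sum_univ_two] using congrFun (congrFun n2 0) 0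
  have e7 : N 1 0 * μ + N 1 1 * star b = 0 := by
    simpa [Matrix.mul_apply, Fin.sum_univ_two] using congrFun (congrFun n2 1) 0
  have e8 : N 1 0 * b + N 1 1 * C = 1 := by
    simpa [Matrix.mul_apply, Fin.sum_univ_two] using congrFun (congrFun n2 1) 1
  obtain ⟨D, hD⟩ : ∃ D, D = μ * C - star b * b := ⟨_, rfl⟩
  have d1 : D * N 1 1 = μ := by
    have : D * N 1 1 = μ * (star b * N 0 1 + C * N 1 1) - star b * (μ * N 0 1 + b * N 1 1) := by
      rw [hD, mul_add (star b), ← mul_assoc (star b) μ, cμ (star b)]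
      noncomm_ring
    rw [this, e4, e2, mul_one, mul_zero, sub_zero]
  have d2 : N 1 1 * D = μ := by
    have : N 1 1 * D = (N 1 0 * b + N 1 1 * C) * μ - (N 1 0 * μ + N 1 1 * star b) * b := by
      rw [hD, add_mul (N 1 0 * μ), mul_assoc (N 1 0) μ b, ← cμ b, ← cμ C]
      noncomm_ring
    rw [this, e8, e7, one_mul, zero_mul, sub_zero]
  have sD : star D = D := by
    rw [hD, star_sub, star_mul, star_mul, star_star, sμ, sC, cμ]
  obtain ⟨e, he⟩ := const_of_mul D (N 1 1) m hm0 (by rw [← hμ]; exact d1)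
    (by rw [← hμ]; exact d2) sD
  -- the determinant of the augmentation
  have f6 : m * C' - b' * b' = e := by
    have := congrArg (augm R G) he
    rw [hD, map_sub, map_mul, map_mul, augm_star, augm_kp, hμ, augm_kp, ← hb', ← hC'] at this
    exact this
  obtain ⟨e', hee⟩ : ∃ e', e * e' = 1 := by
    have f2 : (!![μ, b; star b, C]).map (augm R G) =
        (!![m, b'; b', C'] : Matrix (Fin 2) (Fin 2) R) := by
      ext i j
      fin_cases i <;> fin_cases j
      · change augm R G μ = m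
        rw [hμ, augm_kp]
      · exact hb'.symm
      · change augm R G (star b) = b'
        rw [augm_star, hb']
      · exact hC'.symm
    have f3 : (!![m, b'; b', C'] : Matrix (Fin 2) (Fin 2) R) * N.map (augm R G) = 1 := by
      rw [← f2, ← Matrix.map_mul, n1, Matrix.map_one _ (map_zero _) (map_one _)]
    have f4 := congrArg Matrix.det f3
    rw [Matrix.det_mul, Matrix.det_one, Matrix.det_fin_two_of, f6] at f4
    exact ⟨_, f4⟩
  obtain ⟨E, hE1⟩ : ∃ E : MonoidAlgebra R G, E = kp R G e := ⟨_, rfl⟩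
  obtain ⟨E', hE2⟩ : ∃ E' : MonoidAlgebra R G, E' = kp R G e' := ⟨_, rfl⟩
  have hEE : E * E' = 1 := by rw [hE1, hE2, ← map_mul, hee, map_one]
  have hEE' : E' * E = 1 := by rw [hE1, hE2, ← map_mul, mul_comm, hee, map_one]
  have cE : Cen E := by rw [hE1]; exact cen_kp e
  have cE' : Cen E' := by rw [hE2]; exact cen_kp e'
  rw [← hE1] at he
  obtain ⟨x, hx⟩ : ∃ x : MonoidAlgebra R G, x = kp R G b' := ⟨_, rfl⟩
  obtain ⟨y, hy'⟩ : ∃ y : MonoidAlgebra R G, y = kp R G C' := ⟨_, rfl⟩
  have cx : Cen x := by rw [hx]; exact cen_kp b'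
  have cy : Cen y := by rw [hy']; exact cen_kp C'
  have hxx : x * x = μ * y - E := by
    rw [hx, hμ, hy', hE1, ← map_mul, ← map_mul, ← map_sub, ← f6]
    congr 1; ring
  have r1 : star b * b = μ * C - E := by
    rw [← he, hD]; abel
  have n11 : N 1 1 = E' * μ := by
    calc N 1 1 = E' * (E * N 1 1) := by rw [← mul_assoc, hEE', one_mul]
      _ = _ := by rw [← he, d1]
  have n01 : N 0 1 = -(E' * b) := by
    have h3 : μ * (N 0 1 + E' * b) = 0 := by
      rw [n11, cE'.comm', cμ b] at e2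
      rw [mul_add, ← e2, cE'.comm']
    exact eq_neg_of_add_eq_zero_left (hdd _ h3)
  have r2 : b * star b = μ * (E * N 0 0) - E := by
    have h3 : E * (N 0 0 * μ + N 0 1 * star b) = E * 1 := by rw [e5]
    rw [n01, cμ, mul_add, neg_mul, mul_neg, ← mul_assoc E (E' * b), ← mul_assoc E E', hEE,
      one_mul, mul_one, cm.comm'] at h3
    have h4 : b * star b = μ * (E * N 0 0) - (μ * (E * N 0 0) + -(b * star b)) := by abel
    exact h4.trans (by rw [h3])
  obtain ⟨K, hK⟩ : ∃ K, K = E * N 0 0 := ⟨_, rfl⟩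
  rw [← hK] at r2
  have sK : star K = K := by
    have h1 := congrArg star r2
    rw [star_mul, star_star, star_sub, star_mul, sμ, cE.star, cμ, r2] at h1
    rw [← sub_eq_zero]
    apply hdd
    rw [mul_sub, sub_eq_zero]
    exact (sub_left_injective h1).symm
  -- the residue
  obtain ⟨ξ, hξ⟩ : ∃ ξ : MonoidAlgebra R G, ξ = kp R G (e' * b') := ⟨_, rfl⟩
  have cξ : Cen ξ := by rw [hξ]; exact cen_kp _
  obtain ⟨σ, hσ⟩ : ∃ σ : MonoidAlgebra R G, σ = kp R G (e' * b' * (e' * b')) := ⟨_, rfl⟩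
  have cσ : Cen σ := by rw [hσ]; exact cen_kp _
  obtain ⟨τ, hτ⟩ : ∃ τ : MonoidAlgebra R G, τ = kp R G (e' * C') := ⟨_, rfl⟩
  have cτ : Cen τ := by rw [hτ]; exact cen_kp _
  have hξξ : ξ * ξ = σ := by rw [hξ, hσ, ← map_mul]
  have hσE : σ * E = μ * τ - 1 := by
    rw [hσ, hE1, hμ, hτ, ← map_mul, ← map_mul, ← map_one (kp R G), ← map_sub]
    congr 1
    have : b' * b' = m * C' - e := by rw [← f6]; ring
    linear_combination (e' * e' * e) * this + (e' * m * C' - e * e' - 1) * hee
  obtain ⟨β, hβ⟩ : ∃ β, β = -(ξ * b) := ⟨_, rfl⟩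
  have key : ∀ z w : MonoidAlgebra R G, z = μ * w - E →
      ξ * ξ * z = 1 + μ * (σ * w - τ) := by
    intro z w hz
    rw [hz, hξξ, mul_sub, hσE, cm.comm', mul_sub]
    abel
  have sβ : star β = -(ξ * star b) := by rw [hβ, star_neg, star_mul, cξ.star, cξ.comm]
  have vβ : V (kp R G m) β := by
    rw [← hμ]
    refine ⟨σ * C - τ, σ * K - τ, ?_, ?_, ?_, ?_⟩
    · rw [star_sub, star_mul, sC, cσ.star, cτ.star, cσ.comm]
    · rw [star_sub, star_mul, sK, cσ.star, cτ.star, cσ.comm]
    · rw [← key _ C r1, sβ, hβ, neg_mul_neg, mul_assoc ξ, cξ.comm', ← mul_assoc]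
    · rw [← key _ K r2, sβ, hβ, neg_mul_neg, mul_assoc ξ, cξ.comm', ← mul_assoc]
  have zβ := all_case (G := G) hη hE m hm0 β vβ
  rw [← hμ] at zβ
  obtain ⟨C₂, s₂, k₂, t₂⟩ := disc hh h2 cm hdd cE hEE hEE' x y β cy.star
    (by rw [cx.star]; exact hxx) zβ
  -- the final form
  obtain ⟨z, hz⟩ : ∃ z, z = τ * b := ⟨_, rfl⟩
  have hbz : b = x * β + μ * z := by
    have h3 : x * ξ = μ * τ - 1 := by
      rw [hx, hξ, hμ, hτ, ← map_mul, ← map_mul, ← map_one (kp R G), ← map_sub]
      congr 1
      have : b' * b' = m * C' - e := by rw [← f6]; ring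
      linear_combination e' * this - hee
    rw [hβ, hz, mul_neg, ← mul_assoc x, h3]
    noncomm_ring
  have q3 := W_congr hh h2 cm (x * β) C₂ z s₂
  rw [← hbz] at q3
  have h5 : C₂ + star z * (x * β) + star (x * β) * z + μ * (star z * z) = C := by
    rw [← sub_eq_zero]
    apply hdd
    have h6 : star b * b = μ * (C₂ + star z * (x * β) + star (x * β) * z + μ * (star z * z)) -
        E := by
      have f1 : star z * μ = μ * star z := cμ _
      have f2 : star (x * β) * μ = μ * star (x * β) := cμ _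
      calc star b * b = (star (x * β) + star z * μ) * (x * β + μ * z) := by
            conv_lhs => rw [hbz, star_add, star_mul μ z, sμ]
        _ = star (x * β) * (x * β) + (star (x * β) * μ) * z + (star z * μ) * (x * β) +
            (star z * μ) * (μ * z) := by noncomm_ring
        _ = _ := by
          rw [k₂, f1, f2, mul_assoc μ (star z) (μ * z), ← mul_assoc (star z) μ z, f1]
          noncomm_ring
    rw [mul_sub, sub_eq_zero]
    rw [r1] at h6
    exact (sub_left_injective h6).symm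
  rw [h5] at q3
  rw [hx, hy'] at t₂
  exact ((SE.of_QI q2).trans (t₂.trans ((SE.of_QI (by rw [hx] at q3; exact q3)).trans
    (SE.of_QI q1).symm))).symm

/-- the even case -/
theorem even [UniqueProds G] {η : R} (hη : 2 * η = 1) (hE : Subgroup.closure (El R) = ⊤)
    (δ : Matrix (Fin 2) (Fin 2) (MonoidAlgebra R G))
    (hδ : δ 0 0 ∈ Cs R G) (hn : NS 1 δ) : SE 1 δ (δ.map (rh R G)) := by
  obtain ⟨d, hd⟩ := (mem_Cs _).1 hδ
  by_cases hd0 : d = 0
  · have h0 : δ 0 0 = 0 := by rw [← hd, hd0, MonoidAlgebra.single_zero]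
    obtain ⟨θ, hθ, q1⟩ := plane (cb_of (R := R) (G := G) 1 1 unit_dom) δ hδ
      (by rw [h0, star_zero, smul_zero, add_zero]) hn
    have q2 := q1.map (rh R G) rh_star
    have e1 : θ.map (rh R G) = θ := by
      ext1 i j
      exact rh_const (hθ i j)
    rw [e1] at q2
    exact SE.of_QI (q1.trans q2.symm)
  · exact even_ne hη hE d hd0 δ hd.symm hn

end

end Pool.Agent.X263.Qh
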