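import Pool.Agent.X263.Qh.Tr

/-!
All residues over the group ring of a group with unique products over a factorial domain
containing one half.
-/

set_option autoImplicit false
set_option linter.unusedSectionVars false

namespace Pool.Agent.X263.Qh

open Matrix TH6.PF Pool.Agent.X263.Qf

attribute [local instance] rs

section

variable {R G : Type} [CommRing R] [StarRing R] [TrivialStar R] [Group G]

theorem half_kp {η : R} (hη : 2 * η = 1) : 2 * kp R G η = 1 := by
  have := congrArg (kp R G) hη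
  rw [map_mul, map_one, map_ofNat] at this
  exact this

/-- divisibility by a constant -/
def Dv (n : R) (x : MonoidAlgebra R G) : Prop := ∀ g, n ∣ x.coeff g

theorem Dv.add {n : R} {x y : MonoidAlgebra R G} (h : Dv n x) (h' : Dv n y) : Dv n (x + y) :=
  fun g => by
    rw [MonoidAlgebra.coeff_add, Finsupp.add_apply]
    exact dvd_add (h g) (h' g)

theorem Dv.neg {n : R} {x : MonoidAlgebra R G} (h : Dv n x) : Dv n (-x) :=
  fun g => by
    rw [MonoidAlgebra.coeff_neg, Finsupp.neg_apply]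
    exact (dvd_neg).2 (h g)

theorem Dv.sub {n : R} {x y : MonoidAlgebra R G} (h : Dv n x) (h' : Dv n y) : Dv n (x - y) := by
  rw [sub_eq_add_neg]
  exact h.add h'.neg

theorem dv_kp (n : R) (z : MonoidAlgebra R G) : Dv n (kp R G n * z) := fun g => by
  rw [coeff_kp_mul]
  exact dvd_mul_right _ _

theorem dv_iff {n : R} {x : MonoidAlgebra R G} : Dv n x ↔ ∃ z, x = kp R G n * z := by
  classical
  constructor
  · intro h
    let q : R → R := fun c => if h : n ∣ c ∧ c ≠ 0 then Classical.choose h.1 else 0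
    have q0 : q 0 = 0 := dif_neg (by simp)
    have q1 : ∀ c, n ∣ c → n * q c = c := by
      intro c hc
      by_cases h0 : c = 0
      · rw [h0, q0, mul_zero]
      · have h1 : q c = Classical.choose hc := dif_pos ⟨hc, h0⟩
        rw [h1]
        exact (Classical.choose_spec hc).symm
    refine ⟨MonoidAlgebra.ofCoeff (x.coeff.mapRange q q0), ?_⟩
    ext g
    rw [coeff_kp_mul]
    change x.coeff g = n * q (x.coeff g)
    exact (q1 _ (h g)).symm
  · rintro ⟨z, rfl⟩
    exact dv_kp n z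

theorem Dv.mul_left {n : R} {x : MonoidAlgebra R G} (h : Dv n x) (y : MonoidAlgebra R G) :
    Dv n (y * x) := by
  obtain ⟨z, rfl⟩ := dv_iff.1 h
  rw [(cen_kp n).comm']
  exact dv_kp _ _

theorem Dv.mul_right {n : R} {x : MonoidAlgebra R G} (h : Dv n x) (y : MonoidAlgebra R G) :
    Dv n (x * y) := by
  obtain ⟨z, rfl⟩ := dv_iff.1 h
  rw [mul_assoc]
  exact dv_kp _ _

theorem Dv.of_dvd {n m : R} {x : MonoidAlgebra R G} (h : Dv n x) (hm : m ∣ n) : Dv m x :=
  fun g => hm.trans (h g)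

theorem single_unitary (g : G) {r : R} (hr : r * r = 1) :
    (MonoidAlgebra.single g r) * star (MonoidAlgebra.single g r) = 1 ∧
      star (MonoidAlgebra.single g r) * (MonoidAlgebra.single g r) = 1 := by
  rw [star_single, MonoidAlgebra.single_mul_single, MonoidAlgebra.single_mul_single,
    mul_inv_cancel, inv_mul_cancel, hr]
  exact ⟨rfl, rfl⟩

/-- units modulo a prime -/
theorem unit_mod [UniqueProds G] (p : R) (hp : Prime p) (b : MonoidAlgebra R G)
    (h1 : Dv p (star b * b - 1)) (h2 : Dv p (b * star b - 1)) :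
    ∃ (γ : G) (r : R), (r = 1 ∨ r = -1) ∧ Dv p (b - MonoidAlgebra.single γ r) := by
  classical
  have hpI : (Ideal.span {p}).IsPrime := (Ideal.span_singleton_prime hp.ne_zero).2 hp
  have : IsDomain (R ⧸ Ideal.span {p}) := Ideal.Quotient.isDomain _
  let F : MonoidAlgebra R G →+* MonoidAlgebra (R ⧸ Ideal.span {p}) G :=
    MonoidAlgebra.mapRingHom G (Ideal.Quotient.mk (Ideal.span {p}))
  have hF : ∀ (x : MonoidAlgebra R G) (g : G),
      (F x).coeff g = Ideal.Quotient.mk (Ideal.span {p}) (x.coeff g) :=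
    fun x g => rfl
  have hz : ∀ c : R, Ideal.Quotient.mk (Ideal.span {p}) c = 0 ↔ p ∣ c := fun c => by
    rw [Ideal.Quotient.eq_zero_iff_mem, Ideal.mem_span_singleton]
  have hD : ∀ x : MonoidAlgebra R G, Dv p x ↔ F x = 0 := by
    intro x
    constructor
    · intro h
      ext g
      rw [hF]
      exact (hz _).2 (h g)
    · intro h g
      have := congrArg (fun y => y.coeff g) h
      simp only [hF] at this
      exact (hz _).1 this
  rw [hD, map_sub, map_mul, map_one, sub_eq_zero] at h1 h2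
  obtain ⟨k, γ, hk, hu⟩ := unit_dom (F b) (F (star b)) h2 h1
  have hs : F (star b) = MonoidAlgebra.single γ⁻¹ k := by
    ext h
    rw [hF, coeff_star, ← hF, hu, MonoidAlgebra.coeff_single, MonoidAlgebra.coeff_single,
      Finsupp.single_apply, Finsupp.single_apply]
    by_cases hh : γ = h⁻¹
    · rw [if_pos hh, if_pos (by rw [hh, inv_inv])]
    · rw [if_neg hh, if_neg (by rintro rfl; exact hh (inv_inv γ).symm)]
  rw [hs, hu, MonoidAlgebra.single_mul_single, mul_inv_cancel, MonoidAlgebra.one_def] at h2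
  have h3 : k * k = 1 := by
    have := congrArg (fun y => y.coeff (1 : G)) h2
    simpa [MonoidAlgebra.coeff_single] using this
  have key : ∀ r : R, Ideal.Quotient.mk (Ideal.span {p}) r = k →
      Dv p (b - MonoidAlgebra.single γ r) := by
    intro r hr
    rw [hD, map_sub, hu, sub_eq_zero]
    ext g
    rw [hF, MonoidAlgebra.coeff_single, MonoidAlgebra.coeff_single, Finsupp.single_apply,
      Finsupp.single_apply]
    split_ifs
    · exact hr.symm
    · rw [map_zero]
  rcases mul_self_eq_one_iff.1 h3 with h4 | h4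
  · exact ⟨γ, 1, Or.inl rfl, key 1 (by rw [map_one, h4])⟩
  · exact ⟨γ, -1, Or.inr rfl, key (-1) (by rw [map_neg, map_one, h4])⟩

theorem V.dv {m : R} {b : MonoidAlgebra R G} (h : V (kp R G m) b) {n : R} (hn : n ∣ m) :
    Dv n (star b * b - 1) ∧ Dv n (b * star b - 1) := by
  obtain ⟨c, k, h⟩ := h
  refine ⟨Dv.of_dvd ?_ hn, Dv.of_dvd ?_ hn⟩
  · rw [h.r1, add_sub_cancel_left]; exact dv_kp _ _
  · rw [h.r2, add_sub_cancel_left]; exact dv_kp _ _

/-- distinct residues belong to comaximal primes -/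
theorem comax {η : R} (hη : 2 * η = 1) (p q : R) (b : MonoidAlgebra R G) (γ γ' : G) (r r' : R)
    (hr : r = 1 ∨ r = -1) (hr' : r' = 1 ∨ r' = -1) (h1 : Dv p (b - MonoidAlgebra.single γ r))
    (h2 : Dv q (b - MonoidAlgebra.single γ' r')) (h3 : ¬ Dv q (b - MonoidAlgebra.single γ r)) :
    IsCoprime p q := by
  classical
  -- coefficients of the difference
  have key : ∀ g, ∃ x y : R, (MonoidAlgebra.single γ' r' : MonoidAlgebra R G).coeff g -
      (MonoidAlgebra.single γ r : MonoidAlgebra R G).coeff g = x * p + y * q := by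
    intro g
    obtain ⟨x, hx⟩ := h1 g
    obtain ⟨y, hy⟩ := h2 g
    rw [MonoidAlgebra.coeff_sub, Finsupp.sub_apply] at hx hy
    exact ⟨x, -y, by linear_combination hx - hy⟩
  have one : ∀ s : R, (s = 1 ∨ s = -1) → (∃ x y : R, s = x * p + y * q) → IsCoprime p q := by
    rintro s hs ⟨x, y, hxy⟩
    rcases hs with hs | hs
    · exact ⟨x, y, by rw [← hxy, hs]⟩
    · exact ⟨-x, -y, by rw [hs] at hxy; linear_combination hxy⟩
  by_cases hg : γ = γ'
  · subst hg
    obtain ⟨x, y, hxy⟩ := key γ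
    rw [MonoidAlgebra.coeff_single, MonoidAlgebra.coeff_single, Finsupp.single_eq_same,
      Finsupp.single_eq_same] at hxy
    have hne : r' ≠ r := by rintro rfl; exact h3 h2
    rcases hr with rfl | rfl <;> rcases hr' with rfl | rfl
    · exact absurd rfl hne
    · exact ⟨-(η * x), -(η * y), by linear_combination hη + η * hxy⟩
    · exact ⟨η * x, η * y, by linear_combination hη - η * hxy⟩
    · exact absurd rfl hne
  · obtain ⟨x, y, hxy⟩ := key γ'
    rw [MonoidAlgebra.coeff_single, MonoidAlgebra.coeff_single, Finsupp.single_eq_same,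
      Finsupp.single_eq_of_ne (Ne.symm hg), sub_zero] at hxy
    exact one r' hr' ⟨x, y, hxy⟩

variable [IsDomain R] [UniqueFactorizationMonoid R]

/-- the squarefree case -/
theorem sqfree [UniqueProds G] {η : R} (hη : 2 * η = 1) (hE : Subgroup.closure (El R) = ⊤)
    (S : Finset R) (hS : ∀ p ∈ S, Prime p)
    (hS' : ∀ p ∈ S, ∀ q ∈ S, p ≠ q → ¬ Associated p q) (u : R) (hu : IsUnit u) (n : ℕ) :
    ∀ b : MonoidAlgebra R G, V (kp R G (u * ∏ p ∈ S, p)) b →
      (∃ T : Finset R, T ⊆ S ∧ T.card = n ∧ ∀ p ∈ S, p ∉ T → Dv p (b - 1)) →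
      Z (kp R G η) (kp R G (u * ∏ p ∈ S, p)) b := by
  classical
  have hm0 : u * ∏ p ∈ S, p ≠ 0 :=
    mul_ne_zero hu.ne_zero (Finset.prod_ne_zero_iff.2 fun p hp => (hS p hp).ne_zero)
  have hh := cen_kp (R := R) (G := G) η
  have h2 : 2 * kp R G η = 1 := half_kp hη
  have hm := cen_kp (R := R) (G := G) (u * ∏ p ∈ S, p)
  have hd : ∀ x : MonoidAlgebra R G, kp R G (u * ∏ p ∈ S, p) * x = 0 → x = 0 :=
    fun x => tf_kp hm0 x
  induction n using Nat.strong_induction_on with
  | _ n ih =>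
  intro b hv ⟨T, hTS, hTn, hT⟩
  by_cases hall : ∀ p ∈ S, Dv p (b - 1)
  · have h1 : Dv (u * ∏ p ∈ S, p) (b - 1) := by
      intro g
      refine hu.mul_left_dvd.2 (Finset.prod_dvd_of_isRelPrime ?_ fun p hp => hall p hp g)
      intro p hp q hq hpq
      exact (hS p hp).irreducible.isRelPrime_iff_not_dvd.2 fun h =>
        hS' p hp q hq hpq ((hS p hp).associated_of_dvd (hS q hq) h)
    obtain ⟨z, hz⟩ := dv_iff.1 h1
    have e : b = 1 + kp R G (u * ∏ p ∈ S, p) * z := by rw [← hz, add_sub_cancel]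
    rw [e]
    exact (Z.unit (kp R G η) _ (by simp) (by simp)).congr hh h2 hm z
  · push Not at hall
    obtain ⟨q, hq, hqb⟩ := hall
    obtain ⟨γ, r, hr, hγ⟩ := unit_mod q (hS q hq) b
      (hv.dv (Dvd.dvd.mul_left (Finset.dvd_prod_of_mem _ hq) u)).1
      (hv.dv (Dvd.dvd.mul_left (Finset.dvd_prod_of_mem _ hq) u)).2
    have hr1 : r * r = 1 := by rcases hr with rfl | rfl <;> ring
    obtain ⟨u1, u2⟩ := single_unitary γ hr1
    obtain ⟨t₀, ht₀⟩ : ∃ t₀ : MonoidAlgebra R G, t₀ = MonoidAlgebra.single γ r := ⟨_, rfl⟩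
    rw [← ht₀] at u1 u2 hγ
    obtain ⟨S₁, hS₁⟩ : ∃ S₁, S₁ = S.filter fun p => Dv p (b - t₀) := ⟨_, rfl⟩
    obtain ⟨S₂, hS₂⟩ : ∃ S₂, S₂ = S.filter fun p => ¬ Dv p (b - t₀) := ⟨_, rfl⟩
    have hprod : ∏ p ∈ S, p = (∏ p ∈ S₁, p) * ∏ p ∈ S₂, p := by
      rw [hS₁, hS₂, Finset.prod_filter_mul_prod_filter_not]
    have hcop : IsCoprime (∏ p ∈ S₁, p) (u * ∏ p ∈ S₂, p) := by
      refine (isCoprime_mul_unit_left_right hu _ _).2 ?_
      refine IsCoprime.prod_left fun p hp => IsCoprime.prod_right fun p' hp' => ?_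
      rw [hS₁, Finset.mem_filter] at hp
      rw [hS₂, Finset.mem_filter] at hp'
      obtain ⟨γ', r', hr', hγ'⟩ := unit_mod p' (hS p' hp'.1) b
        (hv.dv (Dvd.dvd.mul_left (Finset.dvd_prod_of_mem _ hp'.1) u)).1
        (hv.dv (Dvd.dvd.mul_left (Finset.dvd_prod_of_mem _ hp'.1) u)).2
      exact comax hη p p' b γ γ' r r' hr hr' (by rw [← ht₀]; exact hp.2) hγ'
        (by rw [← ht₀]; exact hp'.2)
    obtain ⟨y, x, hxy⟩ := hcop
    have z1 := type1 (R := R) (G := G) hη hE (a := ∏ p ∈ S₁, p) (b := u * ∏ p ∈ S₂, p)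
      (x := x) (y := y) (by linear_combination hxy) (t := star t₀)
      (by rw [star_star]; exact u2) (by rw [star_star]; exact u1)
    obtain ⟨β, hβ⟩ : ∃ β, β = kp R G (x * (u * ∏ p ∈ S₂, p)) * star t₀ +
      kp R G (y * ∏ p ∈ S₁, p) := ⟨_, rfl⟩
    have e0 : (∏ p ∈ S₁, p) * (u * ∏ p ∈ S₂, p) = u * ∏ p ∈ S, p := by rw [hprod]; ring
    rw [← hβ, e0] at z1
    refine Z.of_mul hh h2 hm hd hv z1 ?_
    have e1 : ∀ p ∈ S₁, Dv p (b * β - 1) := by
      intro p hp
      have h3 : p ∣ ∏ p ∈ S₁, p := Finset.dvd_prod_of_mem _ hp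
      have h4 : Dv p (β - star t₀) := by
        have h5 : x * (u * ∏ p ∈ S₂, p) = 1 - y * ∏ p ∈ S₁, p := by linear_combination hxy
        have h6 : β - star t₀ = kp R G (∏ p ∈ S₁, p) * (kp R G y * (1 - star t₀)) := by
          rw [hβ, h5, map_sub, map_one, mul_comm y, map_mul]
          noncomm_ring
        rw [h6]
        exact (dv_kp _ _).of_dvd h3
      have h7 : b * β - 1 = b * (β - star t₀) + (b - t₀) * star t₀ := by
        rw [mul_sub, sub_mul, u1]; abel
      rw [h7]
      rw [hS₁, Finset.mem_filter] at hp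
      exact (h4.mul_left b).add (hp.2.mul_right _)
    have e2 : ∀ p ∈ S₂, Dv p (b - 1) → Dv p (b * β - 1) := by
      intro p hp hb
      have h3 : p ∣ u * ∏ p ∈ S₂, p := Dvd.dvd.mul_left (Finset.dvd_prod_of_mem _ hp) u
      have h4 : Dv p (β - 1) := by
        have h5 : y * ∏ p ∈ S₁, p = 1 - x * (u * ∏ p ∈ S₂, p) := by linear_combination hxy
        have h6 : β - 1 = kp R G (u * ∏ p ∈ S₂, p) * (kp R G x * (star t₀ - 1)) := by
          rw [hβ, h5, map_sub, map_one, mul_comm x, map_mul]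
          noncomm_ring
        rw [h6]
        exact (dv_kp _ _).of_dvd h3
      have h7 : b * β - 1 = b * (β - 1) + (b - 1) := by rw [mul_sub, mul_one]; abel
      rw [h7]
      exact (h4.mul_left b).add hb
    have hqT : q ∈ T := by
      by_contra h
      exact hqb (hT q hq h)
    refine ih (T.erase q).card ?_ (b * β) (hv.mul hm z1.v) ⟨T.erase q,
      (Finset.erase_subset _ _).trans hTS, rfl, ?_⟩
    · rw [Finset.card_erase_of_mem hqT, hTn]
      have : 0 < T.card := Finset.card_pos.2 ⟨q, hqT⟩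
      omega
    · intro p hp hpT
      by_cases h3 : Dv p (b - t₀)
      · exact e1 p (by rw [hS₁, Finset.mem_filter]; exact ⟨hp, h3⟩)
      · have h4 : p ∈ S₂ := by rw [hS₂, Finset.mem_filter]; exact ⟨hp, h3⟩
        have h5 : p ≠ q := by rintro rfl; exact h3 hγ
        exact e2 p h4 (hT p hp fun h => hpT (Finset.mem_erase.2 ⟨h5, h⟩))

/-- nonzero elements are squares times squarefree elements -/
theorem sq_free (m : R) (hm : m ≠ 0) : ∃ (r u : R) (S : Finset R), r ≠ 0 ∧ IsUnit u ∧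
    (∀ p ∈ S, Prime p) ∧ (∀ p ∈ S, ∀ q ∈ S, p ≠ q → ¬ Associated p q) ∧
    m = r * r * (u * ∏ p ∈ S, p) := by
  classical
  induction m using UniqueFactorizationMonoid.induction_on_prime with
  | h₁ => exact absurd rfl hm
  | h₂ x hx => exact ⟨1, x, ∅, one_ne_zero, hx, by simp, by simp, by simp⟩
  | h₃ a p ha hp ih =>
    obtain ⟨r, u, S, hr, hu, h1, h2, h3⟩ := ih ha
    by_cases hps : ∃ q ∈ S, Associated q p
    · obtain ⟨q, hq, v, hv⟩ := hps
      refine ⟨r * q, u * v, S.erase q, mul_ne_zero hr (h1 q hq).ne_zero, hu.mul v.isUnit,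
        fun p' hp' => h1 p' (Finset.mem_of_mem_erase hp'), fun p' hp' q' hq' =>
        h2 p' (Finset.mem_of_mem_erase hp') q' (Finset.mem_of_mem_erase hq'), ?_⟩
      rw [h3, ← Finset.mul_prod_erase S (fun x => x) hq, ← hv]
      ring
    · push Not at hps
      have hpS : p ∉ S := fun h => hps p h (Associated.refl p)
      refine ⟨r, u, insert p S, hr, hu, ?_, ?_, ?_⟩
      · intro p' hp'
        rcases Finset.mem_insert.1 hp' with rfl | h
        · exact hp
        · exact h1 p' h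
      · intro p' hp' q' hq' hne
        rcases Finset.mem_insert.1 hp' with rfl | h <;> rcases Finset.mem_insert.1 hq' with rfl | h'
        · exact absurd rfl hne
        · exact fun h4 => hps q' h' h4.symm
        · exact hps p' h
        · exact h2 p' h q' h' hne
      · rw [Finset.prod_insert hpS, h3]; ring

/-- all nonsingular forms with discriminant one are stably hyperbolic -/
theorem all_case [UniqueProds G] {η : R} (hη : 2 * η = 1) (hE : Subgroup.closure (El R) = ⊤)
    (m : R) (hm : m ≠ 0) (b : MonoidAlgebra R G) (hv : V (kp R G m) b) :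
    Z (kp R G η) (kp R G m) b := by
  obtain ⟨r, u, S, hr, hu, h1, h2, h3⟩ := sq_free m hm
  have h0 : u * ∏ p ∈ S, p ≠ 0 :=
    mul_ne_zero hu.ne_zero (Finset.prod_ne_zero_iff.2 fun p hp => (h1 p hp).ne_zero)
  have hrr : Cen (kp R G r * kp R G r) := (cen_kp r).mul (cen_kp r)
  have e : kp R G m = kp R G r * kp R G r * kp R G (u * ∏ p ∈ S, p) := by
    rw [h3, map_mul, map_mul]
  have hv' : V (kp R G (u * ∏ p ∈ S, p)) b := by
    obtain ⟨c, k, s1, s2, r1, r2⟩ := hv
    have f : ∀ y : MonoidAlgebra R G, kp R G m * y =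
        kp R G (u * ∏ p ∈ S, p) * (kp R G r * kp R G r * y) := by
      intro y
      rw [e, ← mul_assoc (kp R G (u * ∏ p ∈ S, p)), hrr.comm]
    exact ⟨kp R G r * kp R G r * c, kp R G r * kp R G r * k,
      by rw [star_mul, s1, hrr.star, hrr.comm], by rw [star_mul, s2, hrr.star, hrr.comm],
      by rw [r1, f], by rw [r2, f]⟩
  have z1 := sqfree hη hE S h1 h2 u hu S.card b hv' ⟨S, Finset.Subset.refl _, rfl,
    fun p hp hp' => absurd hp hp'⟩
  have hmm := tf_kp (G := G) hm
  rw [e] at hv ⊢ hmm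
  exact Z.sq (cen_kp η) (half_kp hη) (cen_kp _) (cen_kp r)
    (fun x => tf_kp h0 x) hmm z1 hv

end

end Pool.Agent.X263.Qh
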