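import Pool.Agent.X263.Qf.Zp

/-!
The relations between even forms of rank two over rings with involution containing one half.
-/

set_option autoImplicit false
set_option linter.unusedSectionVars false

namespace Pool.Agent.X263.Qh

open Matrix Pool.Agent.X263.Qf

section

variable {A : Type*} [Ring A] [StarRing A]

/-- central self-adjoint elements -/
structure Cen (μ : A) : Prop where
  comm : ∀ x : A, x * μ = μ * x
  star : star μ = μ

theorem Cen.mul {μ ν : A} (h : Cen μ) (h' : Cen ν) : Cen (μ * ν) :=
  ⟨fun x => by rw [← mul_assoc, h.comm, mul_assoc, h'.comm, mul_assoc],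
    by rw [star_mul, h.star, h'.star, h.comm]⟩

/-- the forms of rank two -/
def W (h m b c : A) : Matrix (Fin 2) (Fin 2) A := !![h * m, b; 0, h * c]

theorem hl_half {h : A} (hh : Cen h) (h2 : 2 * h = 1) : HL A := by
  intro x hx
  refine ⟨h * x, ?_⟩
  have e : star x = -x := by rw [eq_neg_iff_add_eq_zero, add_comm]; exact hx
  rw [star_mul, hh.star, e, neg_mul, sub_neg_eq_add, hh.comm, ← add_mul, ← two_mul, h2, one_mul]

theorem half_add {h : A} (hh : Cen h) (h2 : 2 * h = 1) {m : A} (hm : star m = m) :
    h * m + star (h * m) = m := by
  rw [star_mul, hh.star, hm, hh.comm, ← add_mul, ← two_mul, h2, one_mul]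

theorem sy_W {h : A} (hh : Cen h) (h2 : 2 * h = 1) {m b c : A} (hm : star m = m)
    (hc : star c = c) : sy 1 (W h m b c) = !![m, b; star b, c] := by
  ext i j
  fin_cases i <;> fin_cases j
  · simpa [sy, W, conjTranspose_apply] using half_add hh h2 hm
  · simp [sy, W, conjTranspose_apply]
  · simp [sy, W, conjTranspose_apply]
  · simpa [sy, W, conjTranspose_apply] using half_add hh h2 hc

/-- an isometry of forms of rank two from one of hermitian matrices -/
theorem QI_W {h : A} (hh : Cen h) (h2 : 2 * h = 1) {m b c m' b' c' : A} (hm : star m = m)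
    (hc : star c = c) (hm' : star m' = m') (hc' : star c' = c') (P Q : Matrix (Fin 2) (Fin 2) A)
    (h1 : P * Q = 1) (h3 : Q * P = 1)
    (h4 : P * !![m, b; star b, c] * Pᴴ = !![m', b'; star b', c']) :
    QI 1 (W h m b c) (W h m' b' c') :=
  QI_of_sy (hl_half hh h2) P Q h1 h3 (by rw [sy_W hh h2 hm hc, sy_W hh h2 hm' hc', h4])

theorem prod_rel {h : A} (hh : Cen h) (h2 : 2 * h = 1) {m e : A} (hm : Cen m) (he : Cen e)
    (hd : ∀ x : A, m * x = 0 → x = 0) (b C b' C' K : A) (sC : star C = C) (sC' : star C' = C')
    (sK : star K = K) (r1 : star b * b = m * C - e) (r2 : star b' * b' = 1 + m * C')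
    (r3 : b' * star b' = 1 + m * K) :
    QI 1 (os (W h m b C) (W h (-(e * m)) (-(e * b')) (-(e * C'))))
      (os (W h m (b * b') (star b' * C * b' - e * C')) (W h 0 (-e) (e * K))) := by
  have hd' : ∀ x y : A, m * x = m * y → x = y := by
    intro x y h
    rw [← sub_eq_zero]
    apply hd
    rw [mul_sub, h, sub_self]
  have mC : m * C = star b * b + e := by rw [r1]; abel
  have mK : m * K = b' * star b' - 1 := by rw [r3]; abel
  have mC' : m * C' = star b' * b' - 1 := by rw [r2]; abel
  have r4 : K * b' = b' * C' := by
    apply hd'
    rw [← mul_assoc, ← mul_assoc m b', ← hm.comm b', mul_assoc b', mK, mC']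
    noncomm_ring
  have r5 : star b' * K = C' * star b' := by
    have := congrArg star r4
    rw [star_mul, star_mul, sK, sC'] at this
    exact this
  have cm' : ∀ x y : A, x * (m * y) = m * (x * y) := fun x y => by
    rw [← mul_assoc, hm.comm, mul_assoc]
  have ce' : ∀ x y : A, x * (e * y) = e * (x * y) := fun x y => by
    rw [← mul_assoc, he.comm, mul_assoc]
  have sm := hm.star
  have se := he.star
  have s1 : star (-(e * m)) = -(e * m) := by rw [star_neg, star_mul, sm, se, he.comm]
  have s2 : star (-(e * C')) = -(e * C') := by rw [star_neg, star_mul, sC', se, he.comm]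
  have s3 : star (star b' * C * b' - e * C') = star b' * C * b' - e * C' := by
    rw [star_sub, star_mul, star_mul, star_mul, star_star, sC, sC', se, he.comm]
    simp only [mul_assoc]
  have s4 : star (e * K) = e * K := by rw [star_mul, sK, se, he.comm]
  refine QI_of_sy (hl_half hh h2)
    (fromBlocks !![1, 0; 0, star b'] !![0, 0; 0, 1] !![-star b, m; 0, 0] !![1, 0; -K, b'])
    (fromBlocks !![1, 0; -(K * star b), b'] !![0, 0; -K, -1]
      !![star b + m * (K * star b), -(m * b');
        star b' * K * star b, 1 - star b' * b']
      !![1 + m * K, m; star b' * K, star b']) ?_ ?_ ?_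
  · rw [fromBlocks_multiply, ← fromBlocks_one]
    simp only [Matrix.mul_fin_two]
    congr 1
    · ext i j
      fin_cases i <;> fin_cases j <;> simp [mul_assoc]
    · ext i j
      fin_cases i <;> fin_cases j <;> simp
    · ext i j
      fin_cases i <;> fin_cases j
      · simp [mul_assoc]
        abel
      · simp
      · simp
        rw [mul_add, cm', ← mul_assoc m K, mK]
        noncomm_ring
      · simp
        rw [cm', ← mul_assoc m K, mK]
        noncomm_ring
    · ext i j
      fin_cases i <;> fin_cases j
      · simp
      · simp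
      · simp
        rw [mul_add, cm', ← mul_assoc m K, mK]
        noncomm_ring
      · simp
        rw [hm.comm, mK]
        abel
  · rw [fromBlocks_multiply, ← fromBlocks_one]
    simp only [Matrix.mul_fin_two]
    congr 1
    · ext i j
      fin_cases i <;> fin_cases j
      · simp
      · simp
      · simp
      · simp
        rw [hm.comm, mK]
        abel
    · ext i j
      fin_cases i <;> fin_cases j <;> simp
    · ext i j
      fin_cases i <;> fin_cases j
      · simp
        noncomm_ring
      · simp
        rw [mK, hm.comm]
        noncomm_ring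
      · simp
      · simp
        rw [mul_assoc (star b') K, hm.comm K, mK]
        noncomm_ring
    · ext i j
      fin_cases i <;> fin_cases j <;> simp
  · rw [sy_os, sy_os, sy_W hh h2 sm sC, sy_W hh h2 s1 s2, sy_W hh h2 sm s3,
      sy_W hh h2 (star_zero A) s4, fromBlocks_conjTranspose, os, os, fromBlocks_multiply,
      fromBlocks_multiply]
    have eb : star (-(e * b')) = -(e * star b') := by rw [star_neg, star_mul, se, he.comm]
    have ee : star (-e) = -e := by rw [star_neg, se]
    rw [eb, ee]
    simp only [ct_two, Matrix.mul_fin_two, Matrix.mul_zero, add_zero, zero_add]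
    congr 1
    · ext i j
      fin_cases i <;> fin_cases j
      · simp
      · simp
      · simp
      · simp
        abel
    · ext i j
      fin_cases i <;> fin_cases j
      · simp [sm]
        rw [hm.comm]; abel
      · simp
      · simp [sm]
        rw [mul_assoc (star b') C, hm.comm C, mC, mul_add, he.comm]
        noncomm_ring
      · simp
        rw [sK]
        rw [mul_assoc, r5]; noncomm_ring
    · ext i j
      fin_cases i <;> fin_cases j
      · simp
        rw [hm.comm]; abel
      · simp
        rw [mC]
        noncomm_ring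
      · simp
      · simp
        rw [ce', ce', r4]; abel
    · ext i j
      fin_cases i <;> fin_cases j
      · simp [sm]
        rw [hm.comm, mC]
        noncomm_ring
      · simp
        rw [sK]
        rw [mul_assoc, mK]; noncomm_ring
      · simp [sm]
        rw [ce' K m, hm.comm K, mK, ce']; noncomm_ring
      · simp
        rw [sK]
        rw [ce' K m, hm.comm K, mK, ce' b' (star b'), ce' K b', ce' b' C', r4]; noncomm_ring

/-- the square relation -/
theorem sq_rel {h : A} (hh : Cen h) (h2 : 2 * h = 1) {m r : A} (hm : Cen m) (hr : Cen r)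
    (hd : ∀ x : A, (r * r * m) * x = 0 → x = 0) (b C K : A) (sC : star C = C)
    (sK : star K = K) (r1 : star b * b = 1 + (r * r * m) * C)
    (r3 : b * star b = 1 + (r * r * m) * K) :
    QI 1 (os (W h (r * r * m) b C) (-(W h m b (r * r * C)))) (hy A (Fin 2)) := by
  have hd' : ∀ x y : A, (r * r * m) * x = (r * r * m) * y → x = y := by
    intro x y h
    rw [← sub_eq_zero]
    apply hd
    rw [mul_sub, h, sub_self]
  have hM : Cen (r * r * m) := (hr.mul hr).mul hm
  have mK : (r * r * m) * K = b * star b - 1 := by rw [r3]; abel
  have mC : (r * r * m) * C = star b * b - 1 := by rw [r1]; abel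
  have r4 : K * b = b * C := by
    apply hd'
    rw [← mul_assoc, ← mul_assoc (r * r * m) b, ← hM.comm b, mul_assoc b, mK, mC]
    noncomm_ring
  have r5 : star b * K = C * star b := by
    have := congrArg star r4
    rw [star_mul, star_mul, sK, sC] at this
    exact this
  have cr := hr.comm
  have cm := hm.comm
  have sr := hr.star
  have sm := hm.star
  have f1 : ∀ x : A, r * m * (r * x) = r * r * m * x := by
    intro x
    rw [← mul_assoc, mul_assoc r m r, cr m, ← mul_assoc]
  have f2 : ∀ x : A, r * x * (r * m) = r * r * m * x := by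
    intro x
    rw [mul_assoc r x, ← mul_assoc x r m, cr x, mul_assoc r x m, cm x]
    simp only [mul_assoc]
  have f3 : ∀ x : A, x * (r * m) = r * m * x := by
    intro x
    rw [← mul_assoc x, cr x, mul_assoc r x m, cm x, ← mul_assoc]
  have f4 : ∀ x : A, r * x * r = r * r * x := by
    intro x
    rw [mul_assoc, cr x, ← mul_assoc]
  have sM : star (r * r * m) = r * r * m := hM.star
  have sc2 : star (r * r * C) = r * r * C := by
    rw [star_mul, star_mul, sr, sC, ← mul_assoc, cr C, mul_assoc, cr C, ← mul_assoc]
  refine (QI_of_sy (ψ' := fromBlocks 0 !![-(r * m), b; -star b, r * C] 0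
    !![-(h * m), 0; 0, h * C]) (hl_half hh h2)
    (fromBlocks !![1, 0; 0, r] !![r, 0; 0, 1] !![0, 0; 0, 1] !![1, 0; 0, 0])
    (fromBlocks !![1, 0; 0, 0] !![-r, 0; 0, 1] !![0, 0; 0, 1] !![1, 0; 0, -r]) ?_ ?_ ?_).trans
    (metab 1 _ _ _ !![r * K, -b; star b, -(r * m)] ?_ ?_)
  · rw [fromBlocks_multiply, ← fromBlocks_one]
    simp only [Matrix.mul_fin_two]
    congr 1 <;> ext i j <;> fin_cases i <;> fin_cases j <;> simp
  · rw [fromBlocks_multiply, ← fromBlocks_one]
    simp only [Matrix.mul_fin_two]
    congr 1 <;> ext i j <;> fin_cases i <;> fin_cases j <;> simp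
  · have e0 : sy 1 (-(W h m b (r * r * C))) =
        !![-m, -b; -star b, -(r * r * C)] := by
      rw [sy_neg, sy_W hh h2 sm sc2]
      ext i j
      fin_cases i <;> fin_cases j <;> rfl
    have e3 : sy 1 (fromBlocks (0 : Matrix (Fin 2) (Fin 2) A)
        !![-(r * m), b; -star b, r * C] 0 !![-(h * m), 0; 0, h * C]) =
        fromBlocks 0 !![-(r * m), b; -star b, r * C] !![-(r * m), -b; star b, r * C]
          !![-m, 0; 0, C] := by
      rw [sy, fromBlocks_conjTranspose, one_smul, Matrix.fromBlocks_add, ct_two, ct_two]
      congr 1
      · simp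
      · simp
      · ext i j
        fin_cases i <;> fin_cases j
        · simp [sr, sm]
          rw [cr]
        · simp
        · simp
        · simp [sr, sC]
          rw [cr]
      · ext i j
        fin_cases i <;> fin_cases j
        · have := half_add hh h2 sm
          simp only [star_mul] at this
          simp
          rw [← neg_add, this]
        · simp
        · simp
        · have := half_add hh h2 sC
          simpa using this
    rw [sy_os, sy_W hh h2 sM sC, e0, e3, fromBlocks_conjTranspose, os, fromBlocks_multiply,
      fromBlocks_multiply]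
    simp only [ct_two, Matrix.mul_fin_two, Matrix.mul_zero, add_zero, zero_add]
    congr 1
    · ext i j
      fin_cases i <;> fin_cases j
      · simp [sr]
        rw [mul_assoc r m r, cr m, ← mul_assoc]; abel
      · simp [sr]
        rw [cr]; abel
      · simp [sr]
        rw [cr (star b)]; abel
      · simp [sr]
        rw [mul_assoc r C r, cr C, ← mul_assoc]; abel
    · ext i j
      fin_cases i <;> fin_cases j <;> simp
    · ext i j
      fin_cases i <;> fin_cases j
      · simp [sr]
        exact cr m
      · simp
      · simp
      · simp [sr]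
        exact cr C
    · ext i j
      fin_cases i <;> fin_cases j <;> simp
  · rw [conjTranspose_zero, smul_zero, add_zero, Matrix.mul_fin_two]
    ext i j
    fin_cases i <;> fin_cases j
    · simp
      rw [f1, mK]; abel
    · simp
      rw [f3]; abel
    · simp
      rw [← mul_assoc (star b) r K, cr, mul_assoc r (star b) K, r5, ← mul_assoc]; abel
    · simp
      rw [f2, mC]; abel
  · rw [conjTranspose_zero, smul_zero, add_zero, Matrix.mul_fin_two]
    ext i j
    fin_cases i <;> fin_cases j
    · simp
      rw [f2, mK]; abel
    · simp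
      rw [mul_assoc r K b, r4, ← mul_assoc b r C, cr b, mul_assoc]; abel
    · simp
      rw [f3]; abel
    · simp
      rw [f1, mC]; abel

end

end Pool.Agent.X263.Qh
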