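import Pool.Agent.X263.Qh.Com
import Pool.Agent.X263.Qf.Wrap

/-!
The residues of two parts over group rings.
-/

set_option autoImplicit false
set_option linter.unusedSectionVars false

namespace Pool.Agent.X263.Qh

open Matrix TH6.PF Pool.Agent.X263.Qf

/-- the involution of the group ring -/
@[reducible] noncomputable def rs (R G : Type) [CommRing R] [StarRing R] [Group G] :
    StarRing (MonoidAlgebra R G) := sr (R := R) (1 : G →* ℤˣ)

attribute [local instance] rs

section

variable {R G : Type} [CommRing R] [StarRing R] [TrivialStar R] [Group G]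

theorem star_rs (x : MonoidAlgebra R G) : star x = sbar 1 x := rfl

theorem star_single (g : G) (r : R) :
    star (MonoidAlgebra.single g r) = MonoidAlgebra.single g⁻¹ r := by
  rw [star_rs, sbar_single, MonoidHom.one_apply, Units.val_one, one_smul, star_trivial]

theorem coeff_star (x : MonoidAlgebra R G) (g : G) : (star x).coeff g = x.coeff g⁻¹ := by
  rw [star_rs, coeff_sbar, MonoidHom.one_apply, Units.val_one, one_smul, star_trivial]

/-- the constants -/
noncomputable def kp (R G : Type) [CommRing R] [Group G] : R →+* MonoidAlgebra R G :=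
  MonoidAlgebra.singleOneRingHom

theorem kp_apply (r : R) : kp R G r = MonoidAlgebra.single 1 r := rfl

theorem star_kp (r : R) : star (kp R G r) = kp R G r := by
  rw [kp_apply, star_single, inv_one]

theorem coeff_kp_mul (r : R) (x : MonoidAlgebra R G) (g : G) :
    (kp R G r * x).coeff g = r * x.coeff g := by
  rw [kp_apply, MonoidAlgebra.coeff_single_mul_apply, inv_one, one_mul]

theorem cen_kp (r : R) : Cen (kp R G r) := by
  refine ⟨fun x => ?_, star_kp r⟩
  ext g
  rw [coeff_kp_mul, kp_apply, MonoidAlgebra.coeff_mul_single_apply, inv_one, mul_one, mul_comm]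

theorem tf_kp [IsDomain R] {r : R} (hr : r ≠ 0) (x : MonoidAlgebra R G)
    (h : kp R G r * x = 0) : x = 0 := by
  ext g
  have h1 := congrArg (fun y => y.coeff g) h
  simp only [coeff_kp_mul, MonoidAlgebra.coeff_zero, Finsupp.coe_zero, Pi.zero_apply,
    mul_eq_zero] at h1 ⊢
  exact h1.resolve_left hr

end

section

variable {R : Type} [CommRing R] [StarRing R] [TrivialStar R]

theorem SE.map' {A B : Type*} [Ring A] [StarRing A] [Ring B] [StarRing B] (f : B →+* A)
    (hf : ∀ x, f (star x) = star (f x)) {ι κ : Type}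
    [Fintype ι] [DecidableEq ι] [Fintype κ] [DecidableEq κ] {ψ : Matrix ι ι B}
    {ψ' : Matrix κ κ B} (h : SE 1 ψ ψ') : SE 1 (ψ.map f) (ψ'.map f) := by
  obtain ⟨μ, i1, i2, h⟩ := h
  refine ⟨μ, i1, i2, ?_⟩
  have e0 : (hy B μ).map f = hy A μ := by
    ext i j
    rcases i with i | i <;> rcases j with j | j <;> simp [hy, Matrix.one_apply, apply_ite f]
  have e : ∀ {ι : Type} [Fintype ι] [DecidableEq ι] (ψ : Matrix ι ι B),
      (os ψ (hy B μ)).map f = os (ψ.map f) (hy A μ) := by
    intro ι _ _ ψ
    rw [os, os, Matrix.fromBlocks_map, e0]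
    simp
  have := h.map f hf
  rwa [e, e] at this

theorem Z.map {A B : Type*} [Ring A] [StarRing A] [Ring B] [StarRing B] (f : B →+* A)
    (hf : ∀ x, f (star x) = star (f x)) {h m b : B} (hz : Z h m b) : Z (f h) (f m) (f b) := by
  obtain ⟨c, k, ⟨s1, s2, h1, h2⟩, h3⟩ := hz
  refine ⟨f c, f k, ⟨?_, ?_, ?_, ?_⟩, ?_⟩
  · rw [← hf, s1]
  · rw [← hf, s2]
  · rw [← hf, ← map_mul, h1, map_add, map_one, map_mul]
  · rw [← hf, ← map_mul, h2, map_add, map_one, map_mul]
  · have h4 := SE.map' f hf h3
    have e0 : (hy B Unit).map f = hy A Unit := by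
      ext i j
      rcases i with i | i <;> rcases j with j | j <;> simp [hy]
    rw [e0] at h4
    have e : (W h m b c).map f = W (f h) (f m) (f b) (f c) := by
      ext i j
      fin_cases i <;> fin_cases j <;> simp [W]
    rwa [e] at h4

variable {G : Type} [Group G]

/-- evaluation of Laurent polynomials at a unitary element -/
theorem transport (t : MonoidAlgebra R G) (h1 : t * star t = 1) (h2 : star t * t = 1) :
    ∃ (f : MonoidAlgebra R (Multiplicative ℤ) →+* MonoidAlgebra R G)
      (_ : ∀ x, f (star x) = star (f x)) (_ : ∀ r, f (kp R _ r) = kp R G r)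
      (g : MonoidAlgebra R (Multiplicative ℤ)), g * star g = 1 ∧ f g = t := by
  let u : (MonoidAlgebra R G)ˣ := ⟨t, star t, h1, h2⟩
  let φ : Multiplicative ℤ →* MonoidAlgebra R G :=
    (Units.coeHom (MonoidAlgebra R G)).comp (zpowersHom (MonoidAlgebra R G)ˣ u)
  let f : MonoidAlgebra R (Multiplicative ℤ) →+* MonoidAlgebra R G :=
    MonoidAlgebra.liftNCRingHom (kp R G) φ fun x y => ((cen_kp x).comm (φ y)).symm
  have hf : ∀ (z : Multiplicative ℤ) (r : R),
      f (MonoidAlgebra.single z r) = kp R G r * φ z := by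
    intro z r
    change MonoidAlgebra.liftNC _ _ (MonoidAlgebra.single z r) = _
    rw [MonoidAlgebra.liftNC_single]
    rfl
  have hsu : star u = u⁻¹ := by
    ext1
    rfl
  have hφ : ∀ z : Multiplicative ℤ, star (φ z) = φ z⁻¹ := by
    intro z
    change star (((zpowersHom (MonoidAlgebra R G)ˣ u z : (MonoidAlgebra R G)ˣ) :
      MonoidAlgebra R G)) = ((zpowersHom (MonoidAlgebra R G)ˣ u z⁻¹ : (MonoidAlgebra R G)ˣ) :
      MonoidAlgebra R G)
    rw [map_inv, zpowersHom_apply, ← Units.coe_star, star_zpow, hsu, _root_.inv_zpow]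
  refine ⟨f, ?_, ?_, MonoidAlgebra.single (Multiplicative.ofAdd 1) 1, ?_, ?_⟩
  · intro x
    induction x using MonoidAlgebra.induction_linear with
    | zero => rw [star_zero, map_zero, star_zero]
    | add x y hx hy => rw [star_add, map_add, hx, hy, map_add, star_add]
    | single g r =>
      rw [star_single, hf, hf, star_mul, hφ, star_kp, (cen_kp r).comm]
  · intro r
    rw [kp_apply, hf, map_one, mul_one]
  · rw [star_single, MonoidAlgebra.single_mul_single, mul_inv_cancel, mul_one,
      ← MonoidAlgebra.one_def]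
  · rw [hf, map_one, one_mul]
    simp [φ, u]

theorem type1 {η : R} (hη : 2 * η = 1) (hE : Subgroup.closure (El R) = ⊤) {a b x y : R}
    (h1 : x * b + y * a = 1) {t : MonoidAlgebra R G} (h3 : t * star t = 1)
    (h4 : star t * t = 1) :
    Z (kp R G η) (kp R G (a * b)) (kp R G (x * b) * t + kp R G (y * a)) := by
  obtain ⟨f, hf, hk, g, h5, h6⟩ := transport t h3 h4
  have h7 := (Z_two (kp R (Multiplicative ℤ)) star_kp hη hE h1 h5).map f hf
  rw [map_add, map_mul f _ g, hk, hk, hk, hk, h6] at h7
  exact h7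

end

end Pool.Agent.X263.Qh
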