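import Pool.Agent.X263.Qh.Rel

/-!
The forms `W h m b C` that are stably hyperbolic.
-/

set_option autoImplicit false
set_option linter.unusedSectionVars false

namespace Pool.Agent.X263.Qh

open Matrix Pool.Agent.X263.Qf

section

variable {A : Type*} [Ring A] [StarRing A]

/-- the data of a nonsingular form `W h m b C` -/
structure Val (m b C K : A) : Prop where
  sC : star C = C
  sK : star K = K
  r1 : star b * b = 1 + m * C
  r2 : b * star b = 1 + m * K

/-- the residues of the nonsingular forms -/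
def V (m b : A) : Prop := ∃ C K : A, Val m b C K

/-- the residues of the stably hyperbolic forms -/
def Z (h m b : A) : Prop := ∃ C K : A, Val m b C K ∧ SE 1 (W h m b C) (hy A Unit)

variable {h m : A}

theorem Z.v {b : A} (hz : Z h m b) : V m b := by
  obtain ⟨c, k, h, _⟩ := hz
  exact ⟨c, k, h⟩

theorem Val.ind (hd : ∀ x : A, m * x = 0 → x = 0) {b c c' k k' : A}
    (hv : Val m b c k) (hv' : Val m b c' k') : c = c' := by
  rw [← sub_eq_zero]
  apply hd
  have e1 := hv.r1
  rw [hv'.r1, add_right_inj] at e1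
  rw [mul_sub, ← e1, sub_self]

theorem Z.spec (hd : ∀ x : A, m * x = 0 → x = 0) {b c k : A} (hz : Z h m b)
    (hv : Val m b c k) : SE 1 (W h m b c) (hy A Unit) := by
  obtain ⟨c', k', h1, h2⟩ := hz
  rw [hv.ind hd h1]
  exact h2

theorem Cen.comm' {μ : A} (hm : Cen μ) (x y : A) : x * (μ * y) = μ * (x * y) := by
  rw [← mul_assoc, hm.comm, mul_assoc]

theorem Val.mul (hm : Cen m) {b c k b' c' k' : A} (hv : Val m b c k) (hv' : Val m b' c' k') :
    Val m (b * b') (c' + star b' * c * b') (k + b * k' * star b) := by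
  refine ⟨?_, ?_, ?_, ?_⟩
  · rw [star_add, star_mul, star_mul, star_star, hv.sC, hv'.sC, mul_assoc]
  · rw [star_add, star_mul, star_mul, star_star, hv.sK, hv'.sK, mul_assoc]
  · calc star (b * b') * (b * b') = star b' * (star b * b) * b' := by
          rw [star_mul]; simp only [mul_assoc]
      _ = _ := by
          rw [hv.r1, mul_add, mul_one, add_mul, hv'.r1, hm.comm', mul_assoc m]
          noncomm_ring
  · calc b * b' * star (b * b') = b * (b' * star b') * star b := by
          rw [star_mul]; simp only [mul_assoc]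
      _ = _ := by
          rw [hv'.r2, mul_add, mul_one, add_mul, hv.r2, hm.comm', mul_assoc m]
          noncomm_ring

theorem V.mul (hm : Cen m) {b b' : A} (hv : V m b) (hv' : V m b') : V m (b * b') := by
  obtain ⟨c, k, hv⟩ := hv
  obtain ⟨c', k', hv'⟩ := hv'
  exact ⟨_, _, hv.mul hm hv'⟩

theorem hplaneW (h : A) (b c : A) (b' : A) (h1 : b * b' = 1) (h2 : b' * b = 1) :
    QI 1 (W h 0 b c) (hy A Unit) := by
  have e : W h 0 b c = T 0 b (h * c) := by
    ext i j
    fin_cases i <;> fin_cases j <;> simp [W, T]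
  rw [e]
  exact hplane b (h * c) b' h1 h2

theorem W_mul (hh : Cen h) (h2 : 2 * h = 1) (hm : Cen m) (hd : ∀ x : A, m * x = 0 → x = 0)
    {b c k b' c' k' : A} (hv : Val m b c k) (hv' : Val m b' c' k') :
    SE 1 (os (W h m b c) (W h m b' c'))
      (os (W h m (b * b') (c' + star b' * c * b')) (hy A Unit)) := by
  have he : Cen (-1 : A) := ⟨fun x => by simp, by simp⟩
  have q1 := prod_rel hh h2 hm he hd b c b' c' k' hv.sC hv'.sC hv'.sK
    (by rw [hv.r1]; abel) hv'.r1 hv'.r2
  have e1 : W h (-(-1 * m)) (-(-1 * b')) (-(-1 * c')) = W h m b' c' := by simp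
  have e2 : star b' * c * b' - -1 * c' = c' + star b' * c * b' := by noncomm_ring
  rw [e1, e2] at q1
  exact SE.of_QI (q1.trans ((QI.refl 1 _).os
    (hplaneW h (-(-1)) _ 1 (by simp) (by simp))))

theorem Z.mul (hh : Cen h) (h2 : 2 * h = 1) (hm : Cen m) (hd : ∀ x : A, m * x = 0 → x = 0)
    {b b' : A} (hz : Z h m b) (hz' : Z h m b') : Z h m (b * b') := by
  obtain ⟨c, k, h1, h3⟩ := hz
  obtain ⟨c', k', g1, g2⟩ := hz'
  refine ⟨_, _, h1.mul hm g1, ?_⟩
  refine SE.cancel_hy (μ := Unit) ?_
  exact (W_mul hh h2 hm hd h1 g1).symm.trans (h3.add g2)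

theorem Z.of_mul (hh : Cen h) (h2 : 2 * h = 1) (hm : Cen m) (hd : ∀ x : A, m * x = 0 → x = 0)
    {b b' : A} (hv : V m b) (hz' : Z h m b') (hz'' : Z h m (b * b')) : Z h m b := by
  obtain ⟨c, k, h1⟩ := hv
  obtain ⟨c', k', g1, g2⟩ := hz'
  refine ⟨_, _, h1, ?_⟩
  refine SE.cancel_hy (μ := Unit) ?_
  have s1 := (SE.refl (ε := 1) (W h m b c)).add g2.symm
  have s2 := W_mul hh h2 hm hd h1 g1
  have s3 := (hz''.spec hd (h1.mul hm g1)).add (SE.refl (ε := 1) (hy A Unit))
  exact s1.trans (s2.trans s3)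

theorem Val.unit (m : A) {t : A} (h1 : star t * t = 1) (h2 : t * star t = 1) :
    Val m t 0 0 :=
  ⟨star_zero A, star_zero A, by rw [h1]; simp, by rw [h2]; simp⟩

theorem Z.unit (h m : A) {t : A} (h1 : star t * t = 1) (h2 : t * star t = 1) : Z h m t := by
  refine ⟨0, 0, Val.unit m h1 h2, SE.of_QI ?_⟩
  have q1 : QI 1 (W h m t 0) !![0, 0; t, h * m] := by
    refine ⟨!![0, 1; 1, 0], !![0, 1; 1, 0], 0, ?_, ?_, ?_⟩
    · ext i j; fin_cases i <;> fin_cases j <;> simp
    · ext i j; fin_cases i <;> fin_cases j <;> simp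
    · rw [ct_two, W, Matrix.mul_fin_two, Matrix.mul_fin_two]
      ext i j
      fin_cases i <;> fin_cases j <;> simp
  refine q1.trans ((T_blocks _ _ _ _).trans ?_)
  refine metab 1 _ _ _ (Matrix.of fun _ _ => t) ?_ ?_
  · ext i j
    simpa [Matrix.mul_apply, Matrix.one_apply] using h1
  · ext i j
    simpa [Matrix.mul_apply, Matrix.one_apply] using h2

/-- change of the residue, with an arbitrary unit as discriminant -/
theorem W_congr (hh : Cen h) (h2 : 2 * h = 1) (hm : Cen m) (b c x : A) (sc : star c = c) :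
    QI 1 (W h m b c) (W h m (b + m * x) (c + star x * b + star b * x + m * (star x * x))) := by
  have f1 : star x * m = m * star x := hm.comm _
  have sc' : star (c + star x * b + star b * x + m * (star x * x)) =
      c + star x * b + star b * x + m * (star x * x) := by
    simp only [star_add, star_mul, star_star, sc, hm.star, hm.comm]
    abel
  refine QI_W hh h2 hm.star sc hm.star sc' !![1, 0; star x, 1] !![1, 0; -star x, 1] ?_ ?_ ?_
  · ext i j; fin_cases i <;> fin_cases j <;> simp
  · ext i j; fin_cases i <;> fin_cases j <;> simp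
  · rw [ct_two, Matrix.mul_fin_two, Matrix.mul_fin_two]
    ext i j
    fin_cases i <;> fin_cases j
    · simp
    · simp
      abel
    · simp
      rw [f1, hm.star, f1, add_comm]
    · simp
      rw [f1, add_mul, mul_assoc m]
      abel

theorem Val.congr (hm : Cen m) {b c k : A} (hv : Val m b c k) (x : A) :
    Val m (b + m * x) (c + star x * b + star b * x + m * (star x * x))
      (k + b * star x + x * star b + m * (x * star x)) := by
  have f1 : star x * m = m * star x := hm.comm _
  refine ⟨?_, ?_, ?_, ?_⟩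
  · simp only [star_add, star_mul, star_star, hv.sC, hm.star, hm.comm]
    abel
  · simp only [star_add, star_mul, star_star, hv.sK, hm.star, hm.comm]
    abel
  · rw [star_add, star_mul, hm.star, f1]
    have f2 : star b * m = m * star b := hm.comm _
    calc (star b + m * star x) * (b + m * x)
        = star b * b + (star b * m) * x + m * (star x * b) + m * ((star x * m) * x) := by
          noncomm_ring
      _ = _ := by rw [f1, f2, hv.r1]; noncomm_ring
  · rw [star_add, star_mul, hm.star]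
    have f2 : b * (star x * m) = m * (b * star x) := by rw [f1, hm.comm']
    have f3 : x * (star x * m) = m * (x * star x) := by rw [f1, hm.comm']
    calc (b + m * x) * (star b + star x * m)
        = b * star b + b * (star x * m) + m * (x * star b) + m * (x * (star x * m)) := by
          noncomm_ring
      _ = _ := by rw [f2, f3, hv.r2]; noncomm_ring

theorem V.congr (hm : Cen m) {b : A} (hv : V m b) (x : A) : V m (b + m * x) := by
  obtain ⟨c, k, hv⟩ := hv
  exact ⟨_, _, hv.congr hm x⟩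

theorem Z.congr (hh : Cen h) (h2 : 2 * h = 1) (hm : Cen m) {b : A} (hz : Z h m b) (x : A) :
    Z h m (b + m * x) := by
  obtain ⟨c, k, h1, h3⟩ := hz
  exact ⟨_, _, h1.congr hm x, (SE.of_QI (W_congr hh h2 hm b c x h1.sC)).symm.trans h3⟩

/-- the square relation -/
theorem Z.sq (hh : Cen h) (h2 : 2 * h = 1) (hm : Cen m) {r : A} (hr : Cen r)
    (hd : ∀ x : A, m * x = 0 → x = 0) (hd' : ∀ x : A, (r * r * m) * x = 0 → x = 0)
    {b : A} (hz : Z h m b) (hv : V (r * r * m) b) : Z h (r * r * m) b := by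
  obtain ⟨c, k, h1⟩ := hv
  refine ⟨c, k, h1, ?_⟩
  have q1 := sq_rel hh h2 hm hr hd' b c k h1.sC h1.sK h1.r1 h1.r2
  have hrr := hr.mul hr
  have h3 : Val m b (r * r * c) (r * r * k) := by
    refine ⟨?_, ?_, ?_, ?_⟩
    · rw [star_mul, h1.sC, hrr.star, hrr.comm]
    · rw [star_mul, h1.sK, hrr.star, hrr.comm]
    · rw [h1.r1, ← mul_assoc m, hrr.comm m]
    · rw [h1.r2, ← mul_assoc m, hrr.comm m]
  have s1 := hz.spec hd h3
  obtain ⟨U, hU⟩ : ∃ U, U = W h m b (r * r * c) := ⟨_, rfl⟩
  rw [← hU] at q1 s1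
  have hns : NS 1 (-U) := os_ns ((QI.symm q1).ns (by norm_num) (hy_ns (A := A) (Fin 2)))
  have hns' : NS 1 U := by
    obtain ⟨N, g1, g2⟩ := hns
    rw [sy_neg] at g1 g2
    exact ⟨-N, by rw [Matrix.mul_neg, ← Matrix.neg_mul, g1],
      by rw [Matrix.neg_mul, ← Matrix.mul_neg, g2]⟩
  have q2 : SE 1 (os (W h (r * r * m) b c) (-U)) (os U (-U)) := by
    refine (SE.of_QI q1).trans (SE.of_QI ?_)
    exact ((os_comm U (-U)).trans (neg_sum 1 U hns')).symm
  exact (SE.cancel hns' q2).trans s1

/-- scaling by a central unit -/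
theorem QI.scale {ι κ : Type*} [Fintype ι] [DecidableEq ι] [Fintype κ] [DecidableEq κ] {u : A}
    (hu : Cen u) {ψ : Matrix ι ι A} {ψ' : Matrix κ κ A} (hq : QI 1 ψ ψ') :
    QI 1 (ψ.map (u * ·)) (ψ'.map (u * ·)) := by
  obtain ⟨P, Q, χ, h1, h2, h3⟩ := hq
  refine ⟨P, Q, u • χ, h1, h2, ?_⟩
  have e1 : P * (ψ.map (u * ·)) * Pᴴ = u • (P * ψ * Pᴴ) := by
    have e2 : P * (ψ.map (u * ·)) = u • (P * ψ) := by
      ext i j
      rw [Matrix.smul_apply, Matrix.mul_apply, Matrix.mul_apply, smul_eq_mul, Finset.mul_sum]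
      exact Finset.sum_congr rfl fun k _ => hu.comm' _ _
    rw [e2, Matrix.smul_mul]
  rw [e1, h3]
  ext i j
  simp only [Matrix.smul_apply, Matrix.add_apply, Matrix.sub_apply, Matrix.map_apply,
    conjTranspose_apply, smul_eq_mul, one_smul, mul_add, mul_sub, star_mul, hu.star, hu.comm]

theorem hy_scale {u v : A} (h1 : u * v = 1) (h3 : v * u = 1) (μ : Type) [Fintype μ]
    [DecidableEq μ] : QI 1 ((hy A μ).map (u * ·)) (hy A μ) := by
  have e : (hy A μ).map (u * ·) = fromBlocks 0 (Matrix.diagonal fun _ => u) 0 0 := by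
    ext i j
    rcases i with i | i <;> rcases j with j | j <;>
      simp [hy, Matrix.one_apply, Matrix.diagonal_apply]
  rw [e]
  refine metab 1 _ _ _ (Matrix.diagonal fun _ => v) ?_ ?_
  · simp [h1]
  · simp [h3]

theorem SE.scale {ι κ : Type} [Fintype ι] [DecidableEq ι] [Fintype κ] [DecidableEq κ] {u v : A}
    (hu : Cen u) (h1 : u * v = 1) (h3 : v * u = 1) {ψ : Matrix ι ι A} {ψ' : Matrix κ κ A}
    (hs : SE 1 ψ ψ') : SE 1 (ψ.map (u * ·)) (ψ'.map (u * ·)) := by
  obtain ⟨μ, i1, i2, hs⟩ := hs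
  have e : ∀ {ι : Type} [Fintype ι] [DecidableEq ι] (ψ : Matrix ι ι A),
      QI 1 (os (ψ.map (u * ·)) (hy A μ)) ((os ψ (hy A μ)).map (u * ·)) := by
    intro ι _ _ ψ
    refine ((QI.refl 1 _).os (hy_scale h1 h3 μ).symm).trans (QI.of_eq ?_)
    rw [os, os, Matrix.fromBlocks_map]
    simp
  exact ⟨μ, i1, i2, (e ψ).trans ((QI.scale hu hs).trans (e ψ').symm)⟩

/-- forms with an arbitrary unit as discriminant -/
theorem disc (hh : Cen h) (h2 : 2 * h = 1) (hm : Cen m) (hd : ∀ x : A, m * x = 0 → x = 0)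
    {e e' : A} (he : Cen e) (hee : e * e' = 1) (hee' : e' * e = 1) (b C b' : A)
    (sC : star C = C) (r1 : star b * b = m * C - e) (hz : Z h m b') :
    ∃ C' : A, star C' = C' ∧ star (b * b') * (b * b') = m * C' - e ∧
      SE 1 (W h m b C) (W h m (b * b') C') := by
  obtain ⟨c', k', h1, h3⟩ := hz
  refine ⟨star b' * C * b' - e * c', ?_, ?_, ?_⟩
  · rw [star_sub, star_mul, star_mul, star_mul, star_star, sC, h1.sC, he.star, he.comm]
    simp only [mul_assoc]
  · calc star (b * b') * (b * b') = star b' * (star b * b) * b' := by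
          rw [star_mul]; simp only [mul_assoc]
      _ = m * (star b' * C * b') - e * (star b' * b') := by
          rw [r1, mul_sub, sub_mul, hm.comm', mul_assoc m, he.comm (star b'), mul_assoc e]
      _ = _ := by
          rw [h1.r1, mul_sub, mul_add, mul_one, he.comm' m c']
          abel
  refine SE.cancel_hy (μ := Unit) ?_
  have hen : Cen (-e) := ⟨fun x => by rw [mul_neg, neg_mul, he.comm], by rw [star_neg, he.star]⟩
  have q1 := prod_rel hh h2 hm he hd b C b' c' k' sC h1.sC h1.sK r1 h1.r1 h1.r2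
  have e1 : W h (-(e * m)) (-(e * b')) (-(e * c')) = (W h m b' c').map ((-e) * ·) := by
    ext i j
    fin_cases i <;> fin_cases j
    · simp only [W, Matrix.map_apply]
      change h * -(e * m) = -e * (h * m)
      rw [mul_neg, neg_mul, he.comm']
    · change -(e * b') = -e * b'
      rw [neg_mul]
    · change (0 : A) = -e * 0
      rw [mul_zero]
    · change h * -(e * c') = -e * (h * c')
      rw [mul_neg, neg_mul, he.comm']
  rw [e1] at q1
  have s1 : SE 1 ((W h m b' c').map ((-e) * ·)) (hy A Unit) :=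
    (SE.scale hen (v := -e') (by rw [neg_mul_neg]; exact hee) (by rw [neg_mul_neg]; exact hee')
      h3).trans (SE.of_QI (hy_scale (v := -e') (by rw [neg_mul_neg]; exact hee)
        (by rw [neg_mul_neg]; exact hee') Unit))
  have s2 := (SE.refl (ε := 1) (W h m b C)).add s1.symm
  refine s2.trans ((SE.of_QI q1).trans ((SE.refl (ε := 1) _).add (SE.of_QI ?_)))
  exact hplaneW h (-e) _ (-e') (by rw [neg_mul_neg]; exact hee) (by rw [neg_mul_neg]; exact hee')

end

end Pool.Agent.X263.Qh
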